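import Pool.Agent.H543Z.PM.Main

/-!
A compact length space of covering dimension one that is not a pro-Minkowski space of rank at most
one: the unit square minus a sparse dense family of disjoint open diamonds, with its induced
length metric.
-/

namespace Pool.Agent.Results.MP_616ade_gt.CarpetCounterexample

open Pool.Agent.H543Z.PM

/-- There is a compact length space of Lebesgue covering dimension `1` that is not the inverse
limit of any inverse sequence of Minkowski `1`-polyhedra. -/
theorem result : ∃ (X : Type) (_ : MetricSpace X), CompactSpace X ∧ IsLengthSpace X ∧
    HasCoveringDim X 1 ∧ ¬ IsProMinkowski X 1 :=
  counterexample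

end Pool.Agent.Results.MP_616ade_gt.CarpetCounterexample
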